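import Pool.Agent.H985Z.SC.Spec

namespace Pool.Agent.H110Z.SC

open Pool.Agent.H985Z.SC Filter Topology Set

/-- clamp to the unit interval -/
noncomputable def cl (t : ℝ) : ℝ := max 0 (min 1 t)

theorem cl_mem (t : ℝ) : cl t ∈ Icc (0 : ℝ) 1 :=
  ⟨le_max_left _ _, max_le zero_le_one (min_le_left _ _)⟩

theorem cl_of_le {t : ℝ} (h : t ≤ 0) : cl t = 0 :=
  max_eq_left ((min_le_right _ _).trans h)

theorem cl_of_ge {t : ℝ} (h : 1 ≤ t) : cl t = 1 := by
  simp [cl, min_eq_left h]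

theorem cont_cl : Continuous cl := by
  unfold cl
  fun_prop

/-- the path from the origin to `a / 3` -/
noncomputable def eta (a : Fin 3 × Fin 3) (t : ℝ) : ℝ × ℝ :=
  (((a.1 : ℕ) : ℝ) / 3 * cl (2 * t), ((a.2 : ℕ) : ℝ) / 3 * cl (2 * t - 1))

theorem cont_eta (a : Fin 3 × Fin 3) : Continuous (eta a) := by
  have := cont_cl
  unfold eta
  fun_prop

theorem digit_mem (i : Fin 3) (t : ℝ) : ((i : ℕ) : ℝ) / 3 * cl t ∈ Icc (0 : ℝ) 1 := by
  have h1 := cl_mem t
  have h2 : ((i : ℕ) : ℝ) ≤ 3 := by exact_mod_cast i.2.le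
  have h3 : (0 : ℝ) ≤ ((i : ℕ) : ℝ) := Nat.cast_nonneg _
  exact ⟨mul_nonneg (by positivity) h1.1, mul_le_one₀ (by linarith) h1.1 h1.2⟩

theorem eta_norm (a : Fin 3 × Fin 3) (t : ℝ) : ‖eta a t‖ ≤ 1 := by
  have h1 := digit_mem a.1 (2 * t)
  have h2 := digit_mem a.2 (2 * t - 1)
  rw [eta, Prod.norm_mk, Real.norm_of_nonneg h1.1, Real.norm_of_nonneg h2.1]
  exact max_le h1.2 h2.2

theorem eta_of_le (a : Fin 3 × Fin 3) {t : ℝ} (h : t ≤ 0) : eta a t = 0 := by
  rw [eta, cl_of_le (by linarith), cl_of_le (by linarith)]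
  simp

theorem eta_of_ge (a : Fin 3 × Fin 3) {t : ℝ} (h : 1 ≤ t) (x : ℝ × ℝ) :
    eta a t + (1 / 3 : ℝ) • x = psi a x := by
  rw [eta, cl_of_ge (by linarith), cl_of_ge (by linarith)]
  ext <;> simp [psi] <;> ring

variable {K : Set (ℝ × ℝ)}

theorem eta_mem (h0 : G0 K) (a : Fin 3 × Fin 3) (t : ℝ) : eta a t ∈ K := by
  have hg := h0.2.2.2.2.1
  rcases le_total t (1 / 2) with h | h
  · rw [eta, cl_of_le (t := 2 * t - 1) (by linarith)]
    simpa using (hg 0 _ (digit_mem a.1 (2 * t))).2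
  · rw [eta, cl_of_ge (t := 2 * t) (by linarith)]
    simpa using (hg a.1.castSucc _ (digit_mem a.2 (2 * t - 1))).1

theorem psi_mem (h0 : G0 K) {a : Fin 3 × Fin 3} (ha : a ≠ (1, 1)) {x : ℝ × ℝ} (hx : x ∈ K) :
    psi a x ∈ K :=
  h0.2.2.2.1 [a] (by simpa [Adm] using ha) x hx

theorem zero_mem (h0 : G0 K) : (0 : ℝ × ℝ) ∈ K := by
  have := eta_mem h0 (0, 0) 0
  rwa [eta_of_le _ le_rfl] at this

theorem sum_mem (h0 : G0 K) (N : ℕ) : ∀ (a : ℕ → Fin 3 × Fin 3), (∀ k, a k ≠ (1, 1)) → ∀ r : ℝ,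
    ∑ k ∈ Finset.range N, (1 / 3 : ℝ) ^ k • eta (a k) (2 - 2 ^ (k + 1) * r) ∈ K := by
  induction N with
  | zero => intro a _ r; simpa using zero_mem h0
  | succ N ih =>
    intro a ha r
    rw [Finset.sum_range_succ']
    rcases le_total r (1 / 2) with h | h
    · have h1 := psi_mem h0 (ha 0) (ih (fun k => a (k + 1)) (fun k => ha _) (2 * r))
      rw [← eta_of_ge (a 0) (t := 2 - 2 ^ (0 + 1) * r) (by norm_num; linarith), Finset.smul_sum]
        at h1
      convert h1 using 1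
      rw [add_comm, pow_zero, one_smul]
      congr 1
      refine Finset.sum_congr rfl fun k _ => ?_
      rw [smul_smul, pow_succ' (1 / 3 : ℝ), pow_succ (2 : ℝ) (k + 1), mul_assoc]
    · rw [Finset.sum_eq_zero, zero_add, pow_zero, one_smul]
      · exact eta_mem h0 _ _
      · intro k _
        rw [eta_of_le, smul_zero]
        have : (4 : ℝ) ≤ 2 ^ (k + 1 + 1) := by
          rw [pow_succ, pow_succ]
          have : (1 : ℝ) ≤ 2 ^ k := one_le_pow₀ (by norm_num)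
          linarith
        nlinarith

theorem joined (hK : IsCarpet K) (h0 : G0 K) {p : ℝ × ℝ} (hp : p ∈ K) : JoinedIn K 0 p := by
  have hstep : ∀ x : K, ∃ (a : Fin 3 × Fin 3) (y : K), a ≠ (1, 1) ∧ psi a y = x := by
    intro x
    have hx : x.1 ∈ ⋃ a ∈ {a : Fin 3 × Fin 3 | a ≠ (1, 1)}, psi a '' K := hK.2.2 ▸ x.2
    simp only [mem_iUnion] at hx
    obtain ⟨a, ha, y, hy, h⟩ := hx
    exact ⟨a, ⟨y, hy⟩, ha, h⟩
  choose d f hd hf using hstep
  let q : ℕ → K := fun k => f^[k] ⟨p, hp⟩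
  let a : ℕ → Fin 3 × Fin 3 := fun k => d (q k)
  have hq : ∀ k, psi (a k) (q (k + 1)) = q k := fun k => by
    simp only [q, a, Function.iterate_succ_apply', hf]
  let γ : ℝ → ℝ × ℝ := fun s => ∑' k, (1 / 3 : ℝ) ^ k • eta (a k) (2 - 2 ^ (k + 1) * (1 - s))
  have hbd : ∀ k s, ‖(1 / 3 : ℝ) ^ k • eta (a k) (2 - 2 ^ (k + 1) * (1 - s))‖ ≤ (1 / 3 : ℝ) ^ k := by
    intro k s
    rw [norm_smul, Real.norm_of_nonneg (by positivity)]
    exact mul_le_of_le_one_right (by positivity) (eta_norm _ _)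
  have hsum : Summable fun k : ℕ => (1 / 3 : ℝ) ^ k :=
    summable_geometric_of_lt_one (by norm_num) (by norm_num)
  have hcont : Continuous γ := continuous_tsum (fun k => by
    have := cont_eta (a k)
    fun_prop) hsum hbd
  have hlim : ∀ s, Tendsto (fun N => ∑ k ∈ Finset.range N,
      (1 / 3 : ℝ) ^ k • eta (a k) (2 - 2 ^ (k + 1) * (1 - s))) atTop (𝓝 (γ s)) := fun s =>
    (Summable.of_norm_bounded hsum (hbd · s)).hasSum.tendsto_sum_nat
  refine JoinedIn.ofLine (f := γ) hcont.continuousOn ?_ ?_ ?_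
  · have : ∀ k : ℕ, (1 / 3 : ℝ) ^ k • eta (a k) (2 - 2 ^ (k + 1) * (1 - 0)) = 0 := by
      intro k
      rw [eta_of_le, smul_zero]
      have : (1 : ℝ) ≤ 2 ^ k := one_le_pow₀ (by norm_num)
      rw [pow_succ]
      linarith
    simp only [γ, this, tsum_zero]
  · have h1 : ∀ N, ∑ k ∈ Finset.range N, (1 / 3 : ℝ) ^ k • eta (a k) (2 - 2 ^ (k + 1) * (1 - 1))
        = p - (1 / 3 : ℝ) ^ N • (q N).1 := by
      intro N
      induction N with
      | zero => simp [q]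
      | succ N ih =>
        rw [Finset.sum_range_succ, ih, ← hq N,
          ← eta_of_ge (a N) (t := 2 - 2 ^ (N + 1) * (1 - 1)) (by norm_num), smul_add, smul_smul,
          pow_succ (1 / 3 : ℝ)]
        abel
    have h2 : Tendsto (fun N => p - (1 / 3 : ℝ) ^ N • (q N).1) atTop (𝓝 (p - 0)) := by
      refine tendsto_const_nhds.sub (squeeze_zero_norm (fun N => ?_) hsum.tendsto_atTop_zero)
      rw [norm_smul, Real.norm_of_nonneg (by positivity)]
      refine mul_le_of_le_one_right (by positivity) ?_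
      have h3 := h0.1 (q N).2
      rw [Prod.norm_def, Real.norm_of_nonneg h3.1.1, Real.norm_of_nonneg h3.2.1]
      exact max_le h3.1.2 h3.2.2
    have h3 := hlim 1
    simp only [h1] at h3
    simpa using tendsto_nhds_unique h3 h2
  · rintro _ ⟨s, -, rfl⟩
    exact hK.1.isClosed.mem_of_tendsto (hlim s)
      (Eventually.of_forall fun N => sum_mem h0 N a (fun k => hd _) _)

theorem cont_Psi (h0 : G0 K) (w : List (Fin 3 × Fin 3)) : Continuous (Psi w) := by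
  obtain ⟨c, hc⟩ := h0.2.2.2.2.2.2.2 w
  rw [show Psi w = _ from funext hc]
  fun_prop

theorem g1 : S_G1 := by
  intro K hK h0
  have hpc : IsPathConnected K := ⟨0, zero_mem h0, fun p hp => joined hK h0 hp⟩
  refine ⟨hpc, ⟨fun p => ?_⟩⟩
  rw [hasBasis_self]
  intro t ht
  obtain ⟨ε, hε, hball⟩ := Metric.mem_nhds_iff.mp ht
  obtain ⟨n, hn⟩ := exists_pow_lt_of_lt_one hε (show (1 / 3 : ℝ) < 1 by norm_num)
  let N : Set (ℝ × ℝ) := ⋃ w ∈ {w | Adm w ∧ w.length = n ∧ p.1 ∈ Psi w '' K}, Psi w '' K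
  have hNK : N ⊆ K := by
    intro x hx
    simp only [N, mem_iUnion] at hx
    obtain ⟨w, hw, y, hy, rfl⟩ := hx
    exact h0.2.2.2.1 w hw.1 y hy
  refine ⟨Subtype.val ⁻¹' N, ?_, IsPathConnected.preimage_coe ?_ hNK, ?_⟩
  · let C : Set (ℝ × ℝ) := ⋃ w ∈ {w | w.length = n ∧ p.1 ∉ Psi w '' K}, Psi w '' K
    have hC : IsClosed C := Set.Finite.isClosed_biUnion
      ((List.finite_length_eq _ n).subset fun w hw => hw.1)
      fun w _ => (hK.1.image (cont_Psi h0 w)).isClosed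
    have hpC : p.1 ∉ C := by
      simp only [C, mem_iUnion, not_exists]
      exact fun w hw h => hw.2 h
    refine mem_of_superset ((hC.isOpen_compl.preimage continuous_subtype_val).mem_nhds hpC) ?_
    intro x hx
    obtain ⟨w, hw1, hw2, hw3⟩ := h0.2.2.2.2.2.2.1 x.1 x.2 n
    simp only [N, mem_preimage, mem_iUnion]
    refine ⟨w, ⟨hw1, hw2, ?_⟩, hw3⟩
    by_contra h
    exact hx (by
      simp only [C, mem_iUnion]
      exact ⟨w, ⟨hw2, h⟩, hw3⟩)
  · obtain ⟨w, hw1, hw2, hw3⟩ := h0.2.2.2.2.2.2.1 p.1 p.2 n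
    refine ⟨p.1, mem_biUnion (s := {w | Adm w ∧ w.length = n ∧ p.1 ∈ Psi w '' K})
      ⟨hw1, hw2, hw3⟩ hw3, fun x hx => ?_⟩
    simp only [N, mem_iUnion] at hx
    obtain ⟨w', hw', hx⟩ := hx
    exact ((hpc.image (cont_Psi h0 w')).joinedIn _ hw'.2.2 _ hx).mono
      (subset_biUnion_of_mem (u := fun w => Psi w '' K) hw')
  · intro x hx
    apply hball
    simp only [N, mem_preimage, mem_iUnion] at hx
    obtain ⟨w, ⟨-, hw2, y, hy, hy'⟩, z, hz, hz'⟩ := hx
    obtain ⟨c, hc⟩ := h0.2.2.2.2.2.2.2 w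
    rw [Metric.mem_ball, Subtype.dist_eq, ← hy', ← hz', hc, hc, hw2]
    refine lt_of_le_of_lt ?_ hn
    have h1 := h0.1 hy
    have h2 := h0.1 hz
    have h3 : (0 : ℝ) < 3 ^ n := by positivity
    rw [Prod.dist_eq, Real.dist_eq, Real.dist_eq, one_div_pow]
    refine max_le ?_ ?_
    · rw [add_sub_add_left_eq_sub, ← sub_div, abs_div, abs_of_pos h3]
      gcongr
      rw [abs_le]
      constructor <;> linarith [h1.1.1, h1.1.2, h2.1.1, h2.1.2]
    · rw [add_sub_add_left_eq_sub, ← sub_div, abs_div, abs_of_pos h3]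
      gcongr
      rw [abs_le]
      constructor <;> linarith [h1.2.1, h1.2.2, h2.2.1, h2.2.2]

end Pool.Agent.H110Z.SC
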